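import Pool.Agent.U425.QH.Int

set_option autoImplicit false

/-!
# Behrend's method: sets embedded in real algebraic sets

Behrend's lower bound `N exp (- C √(log N))` for `r_3(N)` and its refinements by Elkin and by Green and
Wolf use subsets of `{1, ..., N}` which are isomorphic (sums of two elements are equal if and only if
the sums of their images are equal) to subsets of a sphere, or of few spheres, in a space whose
dimension grows with `N`. We show that no such set, for spheres or for any other real algebraic sets,
of any codimension, defined by polynomials of bounded degree in spaces of any dimension which do not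
contain the line through two of the points, is larger than `N exp (- c √(log N))`. So in this model
the function `log (N / r(N))` has the order `√(log N)`, and Behrend's bound is the truth up to the
constant in the exponent.

The main point is a theorem on sums of points of such sets: `|A + A| ≥ |A| exp (c √(log |A|))` for all
finite sets `A` of points of an algebraic set, defined by polynomials of degree at most `e` in `ℝ ^ D`,
without lines, with `c = c(e) > 0` independent of the dimension `D` and of the number of polynomials
(for Behrend's sets this is sharp up to the value of `c`).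

Proof. Let `|A + A| = K |A|`. By the weak Marton theorem (the starting library `H137R2.Weak`) `A` is
covered by `K ^ 185` sets which lie in affine subspaces of dimension at most `480 log K + 1`. New is
the bound in terms of the dimension. Let `m = e - 1`. A proportion `K ^ (- O(1))` of the points
`x ∈ A` are popular, that is the bottom vertices of a proportion `K ^ (- O(1))` of all possible cubes
`x + ∑ ω i h i ∈ A`, `ω ∈ {0, 1} ^ m`. Let `X` be any set of popular points, and suppose that one of
the polynomials, `q`, does not vanish on the affine span of `X`. Then `X` has a subset `X'` with an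
affine span of smaller dimension and `|X| ≤ M |X'|`, where `M = 2 e K ^ (2 ^ e - 2)` does not depend on
`X`: for fixed edges `h i` the `m`-fold difference of `q` is an affine function, which vanishes at the
`x` in question, and if it vanishes identically on the span then the `x` lie in a coset of the space
of the periods of a difference of smaller order on a translate of the span, which is a proper
subspace. Iterating, `X` has at most `k M ^ dim X` elements, if no flat in the algebraic set contains
more than `k` points. With `dim X ≤ 480 log K + 1` this gives `log |A| ≤ C(e) log ^ 2 K`.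
-/

open Finset
open scoped Pointwise
open Pool.Agent.U425.QH (OnAlg rAlg)

namespace Pool.Agent.Results.MP_0f71ae_nt.AlgebraicSets

/-- **Sets in real algebraic sets.**

(1) Let `A` be a finite set of points of the space `ℝ ^ D`, of ANY dimension `D`, and let `Z ⊇ A` be the
common zero set of a set `Q` of polynomials of degree at most `e`. Suppose that no affine subspace
contained in `Z` contains more than `k` points of `A`. Then
`|A + A| ≥ |A| exp ((1/35) √(log (|A| / k) / 2 ^ e))`.

(2) Let `A ⊆ {1, ..., N}` be a union of `T` sets each of which is embedded in an algebraic set of degree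
at most `e` in a space of any dimension, no flat of which contains more than `k` of its points
(`OnAlg e k`). Then `|A| ≤ 2 T k N exp (- (1/50) √(log N / 2 ^ e))`.

(3) For every `e ≥ 2` and `N ≥ 4096` the largest size `rAlg e N` of a progression-free set of this kind
with `T = k = 1` is at least `N exp (- 4 √(log N))` and at most
`2 N exp (- (1/50) √(log N / 2 ^ e))`. -/
theorem result :
    (∀ e k D : ℕ, 1 ≤ e → 1 ≤ k → ∀ (A : Finset (Fin D → ℝ))
      (Q : Set (MvPolynomial (Fin D) ℝ)),
      (∀ q ∈ Q, q.totalDegree ≤ e) → (∀ q ∈ Q, ∀ a ∈ A, MvPolynomial.eval a q = 0) →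
      (∀ F : AffineSubspace ℝ (Fin D → ℝ), (∀ q ∈ Q, ∀ p ∈ F, MvPolynomial.eval p q = 0) →
        {a | a ∈ A ∧ a ∈ F}.ncard ≤ k) →
      (A.card : ℝ) * Real.exp (1 / 35 * √(Real.log (A.card / k) / 2 ^ e)) ≤
        ((A + A).card : ℝ)) ∧
    (∀ e k N T : ℕ, 1 ≤ e → 1 ≤ k → ∀ (A : Finset ℕ) (B : Fin T → Finset ℕ), A ⊆ Icc 1 N →
      (∀ i, B i ⊆ A ∧ OnAlg e k (B i)) → (∀ a ∈ A, ∃ i, a ∈ B i) →
      (A.card : ℝ) ≤ 2 * T * k * N * Real.exp (-(1 / 50) * √(Real.log N / 2 ^ e))) ∧
    (∀ e N : ℕ, 2 ≤ e → 4096 ≤ N →
      (N : ℝ) * Real.exp (-4 * √(Real.log N)) ≤ (rAlg e N : ℝ) ∧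
      (rAlg e N : ℝ) ≤ 2 * N * Real.exp (-(1 / 50) * √(Real.log N / 2 ^ e))) := by
  classical
  refine ⟨?_, ?_, ?_⟩
  · intro e k D he hk A Q hq h0 hF
    obtain ⟨m, rfl⟩ : ∃ m, e = m + 1 := ⟨e - 1, by omega⟩
    exact Pool.Agent.U425.QH.growth m A Q hq h0 k hk hF
  · intro e k N T he hk A B hA hB hcov
    have h1 : A ⊆ univ.biUnion B := fun a ha => by
      obtain ⟨i, hi⟩ := hcov a ha
      exact mem_biUnion.2 ⟨i, mem_univ i, hi⟩
    have h2 : (A.card : ℝ) ≤ ∑ i, ((B i).card : ℝ) := by
      exact_mod_cast (card_le_card h1).trans card_biUnion_le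
    calc (A.card : ℝ) ≤ ∑ i, ((B i).card : ℝ) := h2
      _ ≤ ∑ _i : Fin T, (2 * k * N * Real.exp (-(1 / 50) * √(Real.log N / 2 ^ e))) :=
          sum_le_sum fun i _ => Pool.Agent.U425.QH.hyp_Icc he hk ((hB i).1.trans hA) (hB i).2
      _ = _ := by
          rw [sum_const, card_univ, Fintype.card_fin, nsmul_eq_mul]
          ring
  · intro e N he hN
    have hbdd : BddAbove {n | ∃ A : Finset ℕ, A ⊆ Icc 1 N ∧ ThreeAPFree (A : Set ℕ) ∧
        OnAlg e 1 A ∧ A.card = n} := by
      refine ⟨N, ?_⟩
      rintro n ⟨A, hA, -, -, rfl⟩
      have := card_le_card hA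
      rwa [Nat.card_Icc, Nat.add_sub_cancel] at this
    obtain ⟨A, hA1, hA2, hA3, hA4⟩ := Pool.Agent.U425.QH.behrend_set hN
    have hA3' : OnAlg e 1 A := by
      obtain ⟨D, f, Q, hq, h⟩ := hA3
      exact ⟨D, f, Q, fun q hqQ => (hq q hqQ).trans he, h⟩
    have hmem : A.card ∈ {n | ∃ A : Finset ℕ, A ⊆ Icc 1 N ∧ ThreeAPFree (A : Set ℕ) ∧
        OnAlg e 1 A ∧ A.card = n} := ⟨A, hA1, hA2, hA3', rfl⟩
    constructor
    · refine hA4.trans ?_
      exact_mod_cast le_csSup hbdd hmem
    · obtain ⟨A', hA', -, hA'3, hcard⟩ := Nat.sSup_mem ⟨_, hmem⟩ hbdd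
      have h1 := Pool.Agent.U425.QH.hyp_Icc (e := e) (k := 1) (by omega) le_rfl hA' hA'3
      have h2 : (rAlg e N : ℝ) = (A'.card : ℝ) := by
        rw [hcard]
        rfl
      rw [h2]
      simpa using h1

end Pool.Agent.Results.MP_0f71ae_nt.AlgebraicSets
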