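import Pool.Agent.U465.SR.Int6

set_option autoImplicit false

/-!
# The number of progression-free sets and progression-free subsets of random sets, at all scales

Let `k ≥ 3` (for the problem: `k = 3`) and let `r(N) = r_k(N)` be the largest size of a subset of
`{1, …, N}` without `k`-term progressions. We show for all `N`:

* the number of the subsets of `{1, …, N}` without `k`-term progressions is `2^{Θ(r(N))}`, and almost all
  of these sets have at least `ε r(N)` elements (Balogh, Liu and Sharifzadeh proved the upper bound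
  `2^{O(r(N))}` for infinitely many `N`);
* for every density `q`, the largest subset without `k`-term progressions of a `q`-random subset of
  `{1, …, N}` has size `≍ q N r(m) / m`, where `m = ⌈q^{k-1} N⌉`: the relative size is that of the
  progression-free sets at the scale `m` (`m` is the number of the progressions in the random set through
  one of its points, up to a constant);
* the logarithm of the partition function `Z(β) = ∑ β^{|A|}` (the sum over the progression-free subsets
  of `{1, …, N}`) is `≍ r(N) log (1 + β)` for `β ≥ 1` and `≍ β N r(m) / m`, `m = ⌈β^{k-1} N⌉`, for `β ≤ 1`.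

The method is that of containers (`Pool.Agent.U465.SR.Cont`; the container lemma is the one of
`Pool.Agent.Y940.CT.Fp`). The supersaturation is that of Varnavides at each scale, in `ℤ / P` for a prime
`P` between `2 N` and `4 N`. The point is that one loses at most a constant: the densities at the scales
`m ≤ M` satisfy `r(m) / m ≤ K_η (M / m)^η r(M) / M` for every `η > 0`, by the supermultiplicativity
`r(m) r(s) ≤ r(2 m s)` and Behrend's theorem, while the cost of the containers at the scale `N / 2^j` has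
the factor `2^{- j / (2 (k - 1))}`. So the costs of the scales form a convergent geometric series.
-/

open Finset

namespace Pool.Agent.Results.MP_0f71ae_nt.CountingAndRandomSets

section

open scoped Classical

/-- `A` contains no progression `x, x + d, …, x + (k - 1) d` with `d ≥ 1`. -/
def APFree (k : ℕ) (A : Finset ℕ) : Prop := ∀ x d : ℕ, 0 < d → ¬ ∀ j < k, x + j * d ∈ A

/-- The largest size of a subset of `S` without `k`-term progressions. -/
noncomputable def al (k : ℕ) (S : Finset ℕ) : ℕ := (S.powerset.filter (APFree k)).sup card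

/-- `r_k(N)`: the largest size of a subset of `{1, …, N}` without `k`-term progressions. -/
noncomputable def r (k N : ℕ) : ℕ := al k (Icc 1 N)

/-- The number of the subsets of `{1, …, N}` without `k`-term progressions. -/
noncomputable def num (k N : ℕ) : ℕ := ((Icc 1 N).powerset.filter (APFree k)).card

/-- The number of the subsets of `{1, …, N}` without `k`-term progressions which have less than `x`
elements. -/
noncomputable def small (k N : ℕ) (x : ℝ) : ℕ :=
  ((Icc 1 N).powerset.filter fun A => APFree k A ∧ (A.card : ℝ) < x).card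

/-- The partition function: the sum of `β ^ |A|` over the subsets `A` of `{1, …, N}` without `k`-term
progressions. -/
noncomputable def Z (k N : ℕ) (β : ℝ) : ℝ :=
  ∑ A ∈ (Icc 1 N).powerset.filter (APFree k), β ^ A.card

/-- The mean of `f(S)` for the random set `S` which contains each element of `{1, …, N}` independently
with probability `q`. -/
noncomputable def mean (N : ℕ) (q : ℝ) (f : Finset ℕ → ℝ) : ℝ :=
  ∑ S ∈ (Icc 1 N).powerset, q ^ S.card * (1 - q) ^ (N - S.card) * f S

/-- The probability that this random set has the property `E`. -/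
noncomputable def prob (N : ℕ) (q : ℝ) (E : Finset ℕ → Prop) : ℝ :=
  mean N q fun S => if E S then 1 else 0

/-- The scale `m = ⌈q^(k-1) N⌉`. -/
noncomputable def scale (k N : ℕ) (q : ℝ) : ℕ := ⌈q ^ (k - 1) * N⌉₊

/-- The main term `q N r_k(m) / m`, where `m = ⌈q^(k-1) N⌉`. -/
noncomputable def mu (k N : ℕ) (q : ℝ) : ℝ := q * (N * ((r k (scale k N q) : ℝ) / scale k N q))

theorem al_eq {k N : ℕ} (hk : 2 ≤ k) (S : Finset (Fin N)) :
    al k (S.map (Pool.Agent.U465.SR.fN N 1)) =
      Pool.Agent.U465.SR.alph (Pool.Agent.U465.SR.Free (Pool.Agent.U465.SR.ptN k N)) S :=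
  Pool.Agent.U465.SR.alph_mapN hk S

theorem r_eq {k : ℕ} (hk : 2 ≤ k) (N : ℕ) : r k N = Pool.Agent.U465.SR.rN k N :=
  (Pool.Agent.U465.SR.rN_Icc hk N).symm

theorem sum_map (N : ℕ) (P : Finset ℕ → Prop) [DecidablePred P]
    [DecidablePred fun A : Finset (Fin N) => P (A.map (Pool.Agent.U465.SR.fN N 1))]
    (f : Finset ℕ → ℝ) :
    ∑ A ∈ (Icc 1 N).powerset.filter P, f A =
      ∑ A ∈ (univ : Finset (Fin N)).powerset.filter
        (fun A => P (A.map (Pool.Agent.U465.SR.fN N 1))), f (A.map (Pool.Agent.U465.SR.fN N 1)) := by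
  symm
  refine sum_bij (fun A _ => A.map (Pool.Agent.U465.SR.fN N 1)) ?_ ?_ ?_ ?_
  · intro A hA
    rw [mem_filter] at hA
    rw [mem_filter, mem_powerset, ← Pool.Agent.U465.SR.map_Icc]
    exact ⟨map_subset_map.2 (subset_univ _), hA.2⟩
  · intro A _ B _ h
    exact map_injective _ h
  · intro B hB
    rw [mem_filter, mem_powerset, ← Pool.Agent.U465.SR.map_Icc] at hB
    obtain ⟨A, hA, rfl⟩ := subset_map_iff.1 hB.1
    exact ⟨A, mem_filter.2 ⟨mem_powerset.2 hA, hB.2⟩, rfl⟩
  · intro A _
    rfl

theorem card_map' (N : ℕ) (P : Finset ℕ → Prop) [DecidablePred P]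
    [DecidablePred fun A : Finset (Fin N) => P (A.map (Pool.Agent.U465.SR.fN N 1))] :
    ((Icc 1 N).powerset.filter P).card = ((univ : Finset (Fin N)).powerset.filter
        (fun A => P (A.map (Pool.Agent.U465.SR.fN N 1)))).card := by
  have h1 := sum_map N P fun _ => 1
  simp only [sum_const, nsmul_eq_mul, mul_one] at h1
  exact_mod_cast h1

theorem mean_eq (N : ℕ) (q : ℝ) (f : Finset ℕ → ℝ) :
    mean N q f = Pool.Agent.U465.SR.EE q (univ : Finset (Fin N))
      (fun S => f (S.map (Pool.Agent.U465.SR.fN N 1))) := by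
  unfold mean Pool.Agent.U465.SR.EE
  have h1 := sum_map N (fun _ => True) (fun S => q ^ S.card * (1 - q) ^ (N - S.card) * f S)
  simp only [filter_true] at h1
  rw [h1]
  refine sum_congr rfl fun S _ => ?_
  rw [card_map, card_univ, Fintype.card_fin]

end

/-- **The number of progression-free sets and progression-free subsets of random sets.** Let `k ≥ 3`.

(1) The number of the subsets of `{1, …, N}` without `k`-term progressions is between `2 ^ r_k(N)` and
`2 ^ (C r_k(N))`, for all `N ≥ 1`.
(2) For some `ε > 0` and all `N ≥ 1`, at most the fraction `2 ^ (- r_k(N) / 2)` of these sets has less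
than `ε r_k(N)` elements.
(3) For all `N ≥ 1` the logarithm of the partition function `Z k N β` is between `r_k(N) log (1 + β)` and
`C r_k(N) log (1 + β)` if `β ≥ 1`, and between `c mu k N β` and `C mu k N β` if `0 < β ≤ 1`.
(4) Let `S` be the `q`-random subset of `{1, …, N}`, `N ≥ 1`, `0 < q ≤ 1`, `μ = mu k N q`. Then the mean of
`al k S` is between `μ / 8` and `C μ`, its variance is at most its mean, and
`P(al k S ≥ C μ) ≤ exp (-μ)`, `P(al k S < μ / 16) ≤ 32 / μ`. -/
theorem result (k : ℕ) (hk : 3 ≤ k) :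
    (∃ C : ℝ, 0 < C ∧ ∀ N : ℕ, 1 ≤ N → 2 ^ r k N ≤ num k N ∧
      (num k N : ℝ) ≤ (2 : ℝ) ^ (C * r k N)) ∧
    (∃ ε : ℝ, 0 < ε ∧ ∀ N : ℕ, 1 ≤ N →
      (small k N (ε * r k N) : ℝ) ≤ (2 : ℝ) ^ (-(r k N : ℝ) / 2) * num k N) ∧
    (∃ c C : ℝ, 0 < c ∧ 0 < C ∧ ∀ (N : ℕ) (β : ℝ), 1 ≤ N →
      (1 ≤ β → r k N * Real.log (1 + β) ≤ Real.log (Z k N β) ∧
        Real.log (Z k N β) ≤ C * (r k N * Real.log (1 + β))) ∧
      (0 < β → β ≤ 1 → c * mu k N β ≤ Real.log (Z k N β) ∧
        Real.log (Z k N β) ≤ C * mu k N β)) ∧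
    (∃ C : ℝ, 0 < C ∧ ∀ (N : ℕ) (q : ℝ), 1 ≤ N → 0 < q → q ≤ 1 →
      mu k N q / 8 ≤ mean N q (fun S => (al k S : ℝ)) ∧
      mean N q (fun S => (al k S : ℝ)) ≤ C * mu k N q ∧
      mean N q (fun S => ((al k S : ℝ) - mean N q (fun S => (al k S : ℝ))) ^ 2) ≤
        mean N q (fun S => (al k S : ℝ)) ∧
      prob N q (fun S => C * mu k N q ≤ al k S) ≤ Real.exp (-mu k N q) ∧
      prob N q (fun S => (al k S : ℝ) < mu k N q / 16) ≤ 32 / mu k N q) := by
  classical
  have hk2 : 2 ≤ k := by omega
  obtain ⟨C₀, hC₀, h0⟩ := Pool.Agent.U465.SR.orderN k hk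
  obtain ⟨ε, hε, hty⟩ := Pool.Agent.U465.SR.typicalN k hk
  have hl2 : 0 < Real.log 2 := Real.log_pos (by norm_num)
  have hmu : ∀ (N : ℕ) (q : ℝ), mu k N q =
      q * (N * Pool.Agent.U465.SR.dn k (Pool.Agent.U465.SR.sc k N q)) := by
    intro N q
    unfold mu
    rw [r_eq hk2]
    rfl
  have hfree : ∀ (N : ℕ), (fun A : Finset (Fin N) => APFree k (A.map (Pool.Agent.U465.SR.fN N 1))) =
      Pool.Agent.U465.SR.Free (Pool.Agent.U465.SR.ptN k N) := by
    intro N
    funext A
    exact propext (Pool.Agent.U465.SR.free_map hk2 A).symm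
  have hZ : ∀ (N : ℕ) (β : ℝ), Z k N β =
      Pool.Agent.U465.SR.ZZ β (Pool.Agent.U465.SR.Free (Pool.Agent.U465.SR.ptN k N)) univ := by
    intro N β
    unfold Z Pool.Agent.U465.SR.ZZ
    rw [sum_map N (APFree k) (fun A => β ^ A.card)]
    simp only [card_map, ← hfree]
  have hnum : ∀ N : ℕ, (num k N : ℝ) = Z k N 1 := by
    intro N
    unfold num Z
    simp
  have hnum2 : ∀ N : ℕ, num k N = ((univ : Finset (Fin N)).powerset.filter
      (Pool.Agent.U465.SR.Free (Pool.Agent.U465.SR.ptN k N))).card := by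
    intro N
    unfold num
    rw [card_map', ← hfree]
  have h00 : ∀ N : ℕ, Pool.Agent.U465.SR.Free (Pool.Agent.U465.SR.ptN k N) ∅ :=
    fun N t ht => notMem_empty _ (ht ⟨0, by omega⟩)
  have hmono : ∀ N : ℕ, ∀ I J : Finset (Fin N), J ⊆ I →
      Pool.Agent.U465.SR.Free (Pool.Agent.U465.SR.ptN k N) I →
      Pool.Agent.U465.SR.Free (Pool.Agent.U465.SR.ptN k N) J := fun N I J h hI => hI.mono h
  have hZlow : ∀ (N : ℕ) (β : ℝ), 0 ≤ β → (1 + β) ^ r k N ≤ Z k N β := by
    intro N β hβ
    rw [hZ]
    have h7 := Pool.Agent.U465.SR.ZZ_lower hβ (h00 N) (hmono N) univ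
    have h8 : Pool.Agent.U465.SR.alph
        (Pool.Agent.U465.SR.Free (Pool.Agent.U465.SR.ptN k N)) univ = r k N := (r_eq hk2 N).symm
    rwa [h8] at h7
  have hlow : ∀ N : ℕ, 2 ^ r k N ≤ num k N := by
    intro N
    have h6 : ((2 ^ r k N : ℕ) : ℝ) ≤ (num k N : ℝ) := by
      rw [hnum]
      have h7 := hZlow N 1 zero_le_one
      push_cast
      norm_num at h7
      exact h7
    exact_mod_cast h6
  have hmu1 : ∀ N : ℕ, 1 ≤ N → mu k N 1 = r k N := by
    intro N hN
    have hN0 : (0 : ℝ) < N := by exact_mod_cast hN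
    rw [hmu, Pool.Agent.U465.SR.sc_one, r_eq hk2]
    unfold Pool.Agent.U465.SR.dn
    field_simp
  have hup : ∀ N : ℕ, 1 ≤ N → Real.log (num k N) ≤ C₀ * r k N := by
    intro N hN
    have h6 := (h0 N 1 hN one_pos le_rfl _ rfl).2.2.2.2
    rw [← hZ, ← hmu, hmu1 N hN, ← hnum] at h6
    exact h6
  have hnum0 : ∀ N : ℕ, (0 : ℝ) < num k N := by
    intro N
    have h6 : 0 < 2 ^ r k N := by positivity
    exact_mod_cast h6.trans_le (hlow N)
  refine ⟨⟨C₀ / Real.log 2, by positivity, fun N hN => ⟨hlow N, ?_⟩⟩, ⟨ε, hε, fun N hN => ?_⟩,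
    ⟨Real.log 2 / 8, C₀ / Real.log 2 + C₀ + 1, by positivity, by positivity,
      fun N β hN => ⟨fun hβ => ?_, fun hβ0 hβ1 => ?_⟩⟩, ⟨C₀, hC₀, fun N q hN hq0 hq1 => ?_⟩⟩
  · rw [← Real.logb_le_iff_le_rpow (by norm_num) (hnum0 N)]
    unfold Real.logb
    rw [div_le_iff₀ hl2]
    refine (hup N hN).trans (le_of_eq ?_)
    field_simp
  · have h6 := hty N hN
    rw [← hnum2, ← r_eq hk2] at h6
    have h7 : ((univ : Finset (Fin N)).powerset.filter (fun A =>
        Pool.Agent.U465.SR.Free (Pool.Agent.U465.SR.ptN k N) A ∧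
        (A.card : ℝ) < ε * r k N)).card = small k N (ε * r k N) := by
      unfold small
      rw [card_map']
      simp only [card_map, ← hfree]
    rw [h7] at h6
    rw [neg_div, Real.rpow_neg (by norm_num), ← div_eq_inv_mul, le_div_iff₀ (by positivity)]
    exact h6
  · have hβ0 : 0 < β := by linarith
    have hr0 : (0 : ℝ) ≤ r k N := Nat.cast_nonneg _
    constructor
    · have h3 := Real.log_le_log (by positivity) (hZlow N β hβ0.le)
      rw [Real.log_pow] at h3
      exact h3
    · have h2 := Pool.Agent.U465.SR.ZZ_large hβ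
        (Pool.Agent.U465.SR.Free (Pool.Agent.U465.SR.ptN k N)) univ
      have h8 : Pool.Agent.U465.SR.alph
        (Pool.Agent.U465.SR.Free (Pool.Agent.U465.SR.ptN k N)) univ = r k N := (r_eq hk2 N).symm
      rw [h8, ← hZ, ← hZ, ← hnum] at h2
      have hZ0 : 0 < Z k N β := by
        have := hZlow N β hβ0.le
        exact lt_of_lt_of_le (by positivity) this
      have h3 := Real.log_le_log hZ0 h2
      rw [Real.log_mul (hnum0 N).ne' (by positivity), Real.log_pow] at h3
      have h5 : Real.log β ≤ Real.log (1 + β) := Real.log_le_log hβ0 (by linarith)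
      have h6 : Real.log 2 ≤ Real.log (1 + β) := Real.log_le_log (by norm_num) (by linarith)
      have h7 : C₀ * (r k N : ℝ) ≤ C₀ / Real.log 2 * (r k N * Real.log (1 + β)) := by
        calc C₀ * (r k N : ℝ) = C₀ / Real.log 2 * (r k N * Real.log 2) := by
              field_simp
          _ ≤ _ := by gcongr
      have h9 : (r k N : ℝ) * Real.log β ≤ r k N * Real.log (1 + β) :=
        mul_le_mul_of_nonneg_left h5 hr0
      have h10 : 0 ≤ (r k N : ℝ) * Real.log (1 + β) := mul_nonneg hr0 (hl2.le.trans h6)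
      have h11 : 0 ≤ C₀ * ((r k N : ℝ) * Real.log (1 + β)) := mul_nonneg hC₀.le h10
      have h12 := hup N hN
      linarith
  · obtain ⟨_, _, _, g4, g5⟩ := h0 N β hN hβ0 hβ1 _ rfl
    rw [← hmu, ← hZ] at g4 g5
    have hμ0 : 0 ≤ mu k N β := by
      unfold mu
      positivity
    refine ⟨g4, g5.trans (mul_le_mul_of_nonneg_right ?_ hμ0)⟩
    have : 0 < C₀ / Real.log 2 := by positivity
    linarith
  · obtain ⟨g1, g2, g3, _, _⟩ := h0 N q hN hq0 hq1 _ rfl
    rw [← hmu] at g1 g2 g3
    have hme : mean N q (fun S => (al k S : ℝ)) = Pool.Agent.U465.SR.EE q univ (fun S =>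
        (Pool.Agent.U465.SR.alph (Pool.Agent.U465.SR.Free (Pool.Agent.U465.SR.ptN k N)) S : ℝ)) := by
      rw [mean_eq]
      simp only [al_eq hk2]
    have hμ0 : 0 < mu k N q := by
      rw [hmu]
      have h1 := Pool.Agent.U465.SR.dn_pos (k := k) hk2
        (Pool.Agent.U465.SR.sc_pos (k := k) hN hq0)
      have hN0 : (0 : ℝ) < N := by exact_mod_cast hN
      positivity
    refine ⟨?_, ?_, ?_, ?_, ?_⟩
    · rw [hme]
      linarith
    · rw [hme]
      exact g2
    · rw [hme, mean_eq]
      simp only [al_eq hk2]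
      exact Pool.Agent.U465.SR.var_alph hq0.le hq1 (h00 N) (hmono N) _
    · unfold prob
      rw [mean_eq]
      simp only [al_eq hk2]
      exact g3
    · unfold prob
      rw [mean_eq]
      simp only [al_eq hk2]
      refine (Pool.Agent.U465.SR.low_alph hq0.le hq1 (h00 N) (hmono N) univ (mu k N q / 16)
        (by positivity) (by linarith)).trans (le_of_eq ?_)
      field_simp
      norm_num

end Pool.Agent.Results.MP_0f71ae_nt.CountingAndRandomSets
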