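import Mathlib
import Pool.Agent.U343.Reg3

/-!
# No linear recurrence

For `k ≥ 3` let `r k N` be the largest size of a subset of `{1, ..., N}` without arithmetic
progressions of length `k` (`k = 3`: the function `r_3` of the question).

The functions `r k n, r k (n + 1), ..., r k (n + d)` are linearly independent over every group of
sequences each of which vanishes for all large `n` or is nonzero for all large `n`: germs of a Hardy
field (logarithmico-exponential functions), for instance. In particular `r k` is not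
`P`-recursive, its generating function is not D-finite. The growth of `r k` plays no role; the
reason are long runs on which `r k` is constant, followed by a jump. Linearity is necessary:
`(r (n + 1) - r n) (r (n + 1) - r n - 1) = 0` holds for all `n`.
-/

set_option autoImplicit false

open Filter Finset Topology

namespace Pool.Agent.Results.MP_0f71ae_nt.NoLinearRecurrence

open Pool.Agent.H617R3.AP Pool.Agent.U343.Reg

theorem result (k : ℕ) (hk : 3 ≤ k) :
    (∀ H : AddSubgroup (ℕ → ℂ),
      (∀ c ∈ H, (∀ᶠ n in atTop, c n = 0) ∨ ∀ᶠ n in atTop, c n ≠ 0) →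
      ∀ (d : ℕ) (c : ℕ → ℕ → ℂ), (∀ i ≤ d, c i ∈ H) →
        (∀ᶠ n in atTop, ∑ i ∈ range (d + 1), c i n * (r k (n + i) : ℂ) = 0) →
        ∀ i ≤ d, ∀ᶠ n in atTop, c i n = 0) ∧
    (∀ (d : ℕ) (c : ℕ → Polynomial ℂ),
      (∀ᶠ n : ℕ in atTop, ∑ i ∈ range (d + 1), (c i).eval (n : ℂ) * (r k (n + i) : ℂ) = 0) →
      ∀ i ≤ d, c i = 0) := by
  have hpoly : ∀ q : Polynomial ℂ, (∃ᶠ n : ℕ in atTop, q.eval (n : ℂ) = 0) → q = 0 := by
    intro q hq
    by_contra h0
    have hfin : Set.Finite {n : ℕ | q.eval (n : ℂ) = 0} := by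
      have h1 : (fun n : ℕ => (n : ℂ)) '' {n : ℕ | q.eval (n : ℂ) = 0} ⊆ q.rootSet ℂ := by
        rintro _ ⟨n, hn, rfl⟩
        rw [Polynomial.mem_rootSet]
        exact ⟨h0, by simpa using hn⟩
      exact Set.Finite.of_finite_image ((Polynomial.rootSet_finite q ℂ).subset h1)
        (fun a _ b _ h => by exact_mod_cast h)
    obtain ⟨M, hM⟩ := hfin.bddAbove
    obtain ⟨n, hn, hn2⟩ := (frequently_atTop.1 hq) (M + 1)
    have := hM hn2
    omega
  refine ⟨fun H hH d c hc h => recurrence hk H hH d c hc h, ?_⟩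
  intro d c h
  let ev : Polynomial ℂ →+ (ℕ → ℂ) :=
    { toFun := fun q n => q.eval (n : ℂ)
      map_zero' := by funext n; simp
      map_add' := fun p q => by funext n; simp }
  have hH : ∀ g ∈ ev.range, (∀ᶠ n in atTop, g n = 0) ∨ ∀ᶠ n in atTop, g n ≠ 0 := by
    rintro _ ⟨q, rfl⟩
    by_cases hq : ∃ᶠ n : ℕ in atTop, q.eval (n : ℂ) = 0
    · left
      rw [hpoly q hq]
      exact Eventually.of_forall fun n => by simp [ev]
    · right
      simpa [Filter.Frequently, ev] using hq
  have h1 := recurrence hk ev.range hH d (fun i => ev (c i)) (fun i _ => ⟨c i, rfl⟩) h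
  intro i hi
  exact hpoly _ (h1 i hi).frequently

end Pool.Agent.Results.MP_0f71ae_nt.NoLinearRecurrence
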