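import Mathlib
import Pool.Agent.U343.Reg5

/-!
# `r_3` and its generalisations are not given by regular formulas

For `k ≥ 3` let `r k N` be the largest size of a subset of `{1, ..., N}` without arithmetic
progressions of length `k` (`k = 3`: the function `r_3` of the question).

A `b`-regular sequence `f` (Allouche and Shallit: the sequences `n ↦ f (b ^ e n + s)`,
`s < b ^ e`, span a space of finite dimension; for instance sums of digits, counts of digit
blocks, sizes of the sets of integers below `n` accepted by an automaton, everything given by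
products of matrices over the digits) either is far above `r k` at every scale, or it is bounded
by `(r k n) ^ (1 - δ)`. The reason is a gap at linear growth: if `|f|` is below `ε n` at ONE
scale, then all matrices of the kernel contract by the factor two against `b ^ m`, and
`f n = O (n ^ (1 - δ))`; Szemerédi's theorem (`r k n = o(n)`) and Behrend's lower bound place
`r k` inside the gap. Hence no regular sequence is an asymptotic formula for `r k`, or has its order
of magnitude, not even along one geometric progression `n₀ b ^ m`. In particular the set of the `n`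
with `r k (n + 1) = r k n + 1` is not `b`-automatic, as `r k` would be regular.
-/

set_option autoImplicit false

open Filter Finset Topology

namespace Pool.Agent.Results.MP_0f71ae_nt.NoRegularFormula

open Pool.Agent.H617R3.AP Pool.Agent.U343.Reg

theorem result (k : ℕ) (hk : 3 ≤ k) (b : ℕ) (hb : 2 ≤ b) (f : ℕ → ℂ) (hf : IsRegular b f) :
    ((∃ L : ℕ, ∀ K : ℝ, ∀ᶠ x : ℕ in atTop, ∃ n : ℕ, x ≤ n ∧ n ≤ L * x ∧ K * r k n ≤ ‖f n‖) ∨
      ∃ δ : ℝ, 0 < δ ∧ ∀ᶠ n : ℕ in atTop, ‖f n‖ ≤ (r k n : ℝ) ^ (1 - δ)) ∧
    (∀ n₀ : ℕ, 1 ≤ n₀ → ∀ c C : ℝ, 0 < c →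
      ¬ ∀ᶠ m : ℕ in atTop, c * r k (n₀ * b ^ m) ≤ ‖f (n₀ * b ^ m)‖ ∧
        ‖f (n₀ * b ^ m)‖ ≤ C * r k (n₀ * b ^ m)) ∧
    ¬ Tendsto (fun n : ℕ => (r k n : ℂ) / f n) atTop (𝓝 1) :=
  ⟨regular_alt hk hb hf,
    fun n₀ hn₀ _ _ hc => no_order hk hb hn₀ (hf.holonomic hb n₀) hc,
    no_formula hk hb le_rfl (hf.holonomic hb 1)⟩

end Pool.Agent.Results.MP_0f71ae_nt.NoRegularFormula
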